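import Pool.Agent.W312.KC.Final

set_option autoImplicit false

open Filter Pool.Agent.W312.KC in
/-- For every real `c < 1` and every `k : ℕ → ℕ` with `k n ≤ c * log₂ n` for all large `n` (so in
particular for every constant `k`), the proportion of `k n`-connected matroids tends to `1`, both
among the labelled matroids on `n` elements and among the isomorphism classes of matroids on `n`
elements. -/
theorem Pool.Agent.Results.MP_8c9d5b_co.TutteLog.result (c : ℝ) (hc : c < 1) (k : ℕ → ℕ)
    (hk : ∀ᶠ n : ℕ in atTop, (k n : ℝ) ≤ c * Real.logb 2 n) :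
    Tendsto (fun n : ℕ => (Nat.card {M : Lab n // KConn (k n) M.1} : ℝ) / (Nat.card (Lab n) : ℝ))
      atTop (nhds 1) ∧
    Tendsto (fun n : ℕ => (Nat.card {q : Unlab n // ∀ M : Lab n, q = Quot.mk _ M →
      KConn (k n) M.1} : ℝ) / (Nat.card (Unlab n) : ℝ)) atTop (nhds 1) :=
  main c hc k hk
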